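import Pool.Agent.Helper19.SQ.GoalsQ

/-!
# Project SQ (MP_bb32d1_al), packet CO: opposite root vectors of the coproduct family
-/

set_option autoImplicit false

namespace Pool.Agent.Helper59.SQ

open Pool.Agent.Helper19.SQ

section

variable {B : Type} [Ring B] [Algebra ℂ B]

theorem commute_rvoA (q : ℂ) (E : ℕ → B) (X : B) (h : ∀ i, Commute X (E i)) (d i : ℕ) :
    Commute X (rvoA q E d i) := by
  induction d generalizing i with
  | zero => exact h i
  | succ d ih =>
    rw [rvoA]
    exact ((ih (i + 1)).mul_right (h i)).sub_right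
      (((h i).mul_right (ih (i + 1))).smul_right _)

theorem commute_rvo (q : ℂ) (E : ℕ → B) (X : B) (h : ∀ i, Commute X (E i)) (i j : ℕ) :
    Commute X (rvo q E i j) := commute_rvoA q E X h _ i

theorem rvo_add (q : ℂ) (E : ℕ → B) (i d j : ℕ) (h : j = i + d + 1) :
    rvo q E i j = rvoA q E d i := by
  unfold rvo
  congr 1
  omega

end

theorem sCO (hKG : S_KG) (hKI : S_KI) (hRO : S_RO) : S_CO := by
  intro B _ _ N l q E1 F1 K1 E2 F2 K2 hl hq hq2 h1 h2 hc
  obtain ⟨ki1, ki2, ki3, ki4, -, -⟩ := hKI B l K2 (by omega) h2.K_comm h2.K_pow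
  obtain ⟨ro1, -, -, -, -⟩ := hRO B q F2 hq hq2 h2.sF
  have kg := fun p i j hij => (hKG B N l q E2 F2 K2 (by omega) hq h2 p i j hij).2.2
  -- weights of `kk`
  have kw : ∀ a b i j, i < j → kk l K2 a b * rvo q F2 i j
      = q ^ (ew b i j - ew a i j) • (rvo q F2 i j * kk l K2 a b) := by
    intro a b i j hij
    obtain ⟨e1, -⟩ := kg a i j hij
    obtain ⟨-, e2⟩ := kg b i j hij
    unfold kk
    rw [mul_assoc, e2, mul_smul_comm, ← mul_assoc, e1, smul_mul_assoc, smul_smul, mul_assoc,
      ← zpow_add₀ hq]
    congr 2
  have kkm : ∀ a b c, kk l K2 a b * kk l K2 b c = kk l K2 a c := by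
    intro a b c
    unfold kk
    calc K2 a * ki l K2 b * (K2 b * ki l K2 c) = K2 a * (ki l K2 b * K2 b) * ki l K2 c := by
          noncomm_ring
      _ = _ := by rw [ki2, mul_one]
  have kkc : ∀ a b c e, Commute (kk l K2 a b) (kk l K2 c e) := by
    intro a b c e
    unfold kk
    have c1 : ∀ i j, Commute (K2 i) (K2 j) := fun i j => h2.K_comm i j
    have c2 : ∀ i j, Commute (K2 i) (ki l K2 j) := fun i j => ki3 i j
    have c3 : ∀ i j, Commute (ki l K2 i) (ki l K2 j) := fun i j => ki4 i j
    exact Commute.mul_left ((c1 a c).mul_right (c2 a e))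
      (((c2 c b).symm).mul_right (c3 b e))
  have cFK : ∀ i a b, Commute (F1 i) (kk l K2 a b) := by
    intro i a b
    have c1 : ∀ a, Commute (F1 i) (K2 a) := fun a => hc.FK i a
    exact (c1 a).mul_right ((c1 b).pow_right _)
  have cRK : ∀ i j a b, Commute (rvo q F1 i j) (kk l K2 a b) := fun i j a b =>
    (commute_rvo q F1 _ (fun i => (cFK i a b).symm) i j).symm
  have cFF : ∀ i a b, Commute (F1 i) (rvo q F2 a b) := fun i a b =>
    commute_rvo q F2 _ (fun j => hc.FF i j) a b
  have cRF : ∀ i j a, Commute (rvo q F1 i j) (F2 a) := fun i j a =>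
    (commute_rvo q F1 _ (fun k => (show Commute (F1 k) (F2 a) from hc.FF k a).symm) i j).symm
  have base : ∀ (E : ℕ → B) (i : ℕ), rvo q E i (i + 1) = E i := fun E i => by
    rw [rvo_add q E i 0 (i + 1) rfl]; rfl
  have key : ∀ d i j, j = i + d + 1 →
      rvo q (cF l F1 K2 F2) i j = rvo q F2 i j +
        (1 - q⁻¹ ^ 2) • ∑ p ∈ Finset.Ioo i j, rvo q F1 i p * rvo q F2 p j * kk l K2 p i +
        rvo q F1 i j * kk l K2 j i := by
    intro d
    induction d with
    | zero =>
      intro i j hj
      simp only [Nat.add_zero] at hj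
      subst hj
      have : Finset.Ioo i (i + 1) = ∅ := by
        ext x
        simp only [Finset.mem_Ioo, Finset.notMem_empty, iff_false]
        omega
      rw [this, Finset.sum_empty, smul_zero, base, base, base, cF]
      abel
    | succ d ih =>
      intro i j hj
      have ih' := ih (i + 1) j (by omega)
      have step : ∀ E : ℕ → B, rvo q E i j = rvo q E (i + 1) j * E i
          - q⁻¹ • (E i * rvo q E (i + 1) j) := by
        intro E
        rw [rvo_add q E i (d + 1) j (by omega), rvo_add q E (i + 1) d j (by omega), rvoA]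
      have stepp : ∀ p, i + 1 < p → rvo q F1 i p = rvo q F1 (i + 1) p * F1 i
          - q⁻¹ • (F1 i * rvo q F1 (i + 1) p) := by
        intro p hp
        obtain ⟨e, rfl⟩ : ∃ e, p = i + 1 + e + 1 := ⟨p - i - 2, by omega⟩
        rw [rvo_add q F1 i (e + 1) _ (by omega), rvo_add q F1 (i + 1) e _ (by omega), rvoA]
      have hins : Finset.Ioo i j = insert (i + 1) (Finset.Ioo (i + 1) j) := by
        ext x
        simp only [Finset.mem_Ioo, Finset.mem_insert]
        omega
      rw [step, ih', hins, Finset.sum_insert (by simp)]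
      set f1 := rvo q F1 (i + 1) j with hf1
      set f2 := rvo q F2 (i + 1) j with hf2
      set S := ∑ p ∈ Finset.Ioo (i + 1) j, rvo q F1 (i + 1) p * rvo q F2 p j * kk l K2 p (i + 1)
        with hS
      -- part A
      have hA : f2 * cF l F1 K2 F2 i - q⁻¹ • (cF l F1 K2 F2 i * f2) = rvo q F2 i j +
          (1 - q⁻¹ ^ 2) • (rvo q F1 i (i + 1) * rvo q F2 (i + 1) j * kk l K2 (i + 1) i) := by
        rw [step F2, ← hf2, base]
        have a1 : kk l K2 (i + 1) i * f2 = q⁻¹ • (f2 * kk l K2 (i + 1) i) := by
          rw [hf2, kw (i + 1) i (i + 1) j (by omega)]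
          congr 1
          have e1 : ew i (i + 1) j = 0 := by
            unfold ew
            rw [if_neg (by omega), if_neg (by omega)]; rfl
          have e2 : ew (i + 1) (i + 1) j = 1 := by
            unfold ew
            rw [if_pos rfl, if_neg (by omega)]; rfl
          rw [e1, e2]
          simp
        have a2 : f2 * F1 i = F1 i * f2 := ((cFF i (i + 1) j).eq).symm
        have a3 : f2 * (F1 i * kk l K2 (i + 1) i) = F1 i * f2 * kk l K2 (i + 1) i := by
          rw [← mul_assoc, a2]
        have a4 : F1 i * kk l K2 (i + 1) i * f2 = q⁻¹ • (F1 i * f2 * kk l K2 (i + 1) i) := by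
          rw [mul_assoc, a1, mul_smul_comm, mul_assoc]
        rw [cF, mul_add, add_mul, a3, a4]
        module
      -- part C
      have hC : f1 * kk l K2 j (i + 1) * cF l F1 K2 F2 i
          - q⁻¹ • (cF l F1 K2 F2 i * (f1 * kk l K2 j (i + 1))) =
          rvo q F1 i j * kk l K2 j i := by
        rw [step F1, ← hf1]
        have c1 : kk l K2 j (i + 1) * F2 i = q⁻¹ • (F2 i * kk l K2 j (i + 1)) := by
          have := kw j (i + 1) i (i + 1) (by omega)
          rw [base] at this
          rw [this]
          congr 1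
          have e1 : ew (i + 1) i (i + 1) = -1 := by
            unfold ew
            rw [if_neg (by omega), if_pos rfl]; rfl
          have e2 : ew j i (i + 1) = 0 := by
            unfold ew
            rw [if_neg (by omega), if_neg (by omega)]; rfl
          rw [e1, e2]
          simp
        have c2 : f1 * kk l K2 j (i + 1) * (F1 i * kk l K2 (i + 1) i) =
            f1 * F1 i * kk l K2 j i := by
          calc f1 * kk l K2 j (i + 1) * (F1 i * kk l K2 (i + 1) i)
              = f1 * (kk l K2 j (i + 1) * F1 i) * kk l K2 (i + 1) i := by noncomm_ring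
            _ = f1 * (F1 i * kk l K2 j (i + 1)) * kk l K2 (i + 1) i := by
                rw [(cFK i j (i + 1)).eq]
            _ = f1 * F1 i * (kk l K2 j (i + 1) * kk l K2 (i + 1) i) := by noncomm_ring
            _ = _ := by rw [kkm]
        have c3 : F1 i * kk l K2 (i + 1) i * (f1 * kk l K2 j (i + 1)) =
            F1 i * f1 * kk l K2 j i := by
          calc F1 i * kk l K2 (i + 1) i * (f1 * kk l K2 j (i + 1))
              = F1 i * (kk l K2 (i + 1) i * f1) * kk l K2 j (i + 1) := by noncomm_ring
            _ = F1 i * (f1 * kk l K2 (i + 1) i) * kk l K2 j (i + 1) := by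
                rw [(cRK (i + 1) j (i + 1) i).eq]
            _ = F1 i * f1 * (kk l K2 (i + 1) i * kk l K2 j (i + 1)) := by noncomm_ring
            _ = _ := by rw [(kkc (i + 1) i j (i + 1)).eq, kkm]
        have c4 : f1 * kk l K2 j (i + 1) * F2 i = q⁻¹ • (F2 i * (f1 * kk l K2 j (i + 1))) := by
          rw [mul_assoc, c1, mul_smul_comm, ← mul_assoc, ← mul_assoc, (cRF (i + 1) j i).eq]
        rw [cF, mul_add, add_mul, c2, c3, c4, sub_mul, smul_mul_assoc]
        module
      -- part B
      have hB : S * cF l F1 K2 F2 i - q⁻¹ • (cF l F1 K2 F2 i * S) =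
          ∑ p ∈ Finset.Ioo (i + 1) j, rvo q F1 i p * rvo q F2 p j * kk l K2 p i := by
        rw [hS, Finset.sum_mul, Finset.mul_sum, Finset.smul_sum, ← Finset.sum_sub_distrib]
        refine Finset.sum_congr rfl fun p hp => ?_
        rw [Finset.mem_Ioo] at hp
        obtain ⟨hp1, hp2⟩ := hp
        rw [stepp p hp1]
        set u := rvo q F1 (i + 1) p with hu
        set w := rvo q F2 p j with hw
        have b1 : kk l K2 p (i + 1) * F2 i = q⁻¹ • (F2 i * kk l K2 p (i + 1)) := by
          have := kw p (i + 1) i (i + 1) (by omega)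
          rw [base] at this
          rw [this]
          congr 1
          have e1 : ew (i + 1) i (i + 1) = -1 := by
            unfold ew
            rw [if_neg (by omega), if_pos rfl]; rfl
          have e2 : ew p i (i + 1) = 0 := by
            unfold ew
            rw [if_neg (by omega), if_neg (by omega)]; rfl
          rw [e1, e2]
          simp
        have b2 : F2 i * w = w * F2 i := ro1 p j i hp2 (Or.inl hp1)
        have b3 : u * w * kk l K2 p (i + 1) * F2 i =
            q⁻¹ • (F2 i * (u * w * kk l K2 p (i + 1))) := by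
          calc u * w * kk l K2 p (i + 1) * F2 i = u * w * (kk l K2 p (i + 1) * F2 i) := by
                rw [mul_assoc]
            _ = q⁻¹ • (u * (w * F2 i) * kk l K2 p (i + 1)) := by
                rw [b1, mul_smul_comm]
                noncomm_ring
            _ = q⁻¹ • (u * F2 i * w * kk l K2 p (i + 1)) := by
                rw [← b2]
                noncomm_ring
            _ = _ := by
                rw [(cRF (i + 1) p i).eq]
                noncomm_ring
        have b4 : kk l K2 (i + 1) i * w = w * kk l K2 (i + 1) i := by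
          rw [hw, kw (i + 1) i p j hp2]
          have e1 : ew (i + 1) p j = 0 := by
            unfold ew
            rw [if_neg (by omega), if_neg (by omega)]; rfl
          have e2 : ew i p j = 0 := by
            unfold ew
            rw [if_neg (by omega), if_neg (by omega)]; rfl
          rw [e1, e2]
          simp
        have b5 : u * w * kk l K2 p (i + 1) * (F1 i * kk l K2 (i + 1) i) =
            u * F1 i * w * kk l K2 p i := by
          calc u * w * kk l K2 p (i + 1) * (F1 i * kk l K2 (i + 1) i)
              = u * w * (kk l K2 p (i + 1) * F1 i) * kk l K2 (i + 1) i := by noncomm_ring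
            _ = u * w * (F1 i * kk l K2 p (i + 1)) * kk l K2 (i + 1) i := by
                rw [(cFK i p (i + 1)).eq]
            _ = u * (w * F1 i) * (kk l K2 p (i + 1) * kk l K2 (i + 1) i) := by noncomm_ring
            _ = u * (F1 i * w) * kk l K2 p i := by rw [kkm, (cFF i p j).eq]
            _ = _ := by noncomm_ring
        have b6 : F1 i * kk l K2 (i + 1) i * (u * w * kk l K2 p (i + 1)) =
            F1 i * u * w * kk l K2 p i := by
          calc F1 i * kk l K2 (i + 1) i * (u * w * kk l K2 p (i + 1))
              = F1 i * (kk l K2 (i + 1) i * u) * w * kk l K2 p (i + 1) := by noncomm_ring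
            _ = F1 i * (u * kk l K2 (i + 1) i) * w * kk l K2 p (i + 1) := by
                rw [(cRK (i + 1) p (i + 1) i).eq]
            _ = F1 i * u * (kk l K2 (i + 1) i * w) * kk l K2 p (i + 1) := by noncomm_ring
            _ = F1 i * u * w * (kk l K2 (i + 1) i * kk l K2 p (i + 1)) := by
                rw [b4]
                noncomm_ring
            _ = _ := by rw [(kkc (i + 1) i p (i + 1)).eq, kkm]
        rw [cF, mul_add, add_mul, b3, b5, b6, sub_mul, sub_mul, smul_mul_assoc, smul_mul_assoc]
        module
      have hfin : (f2 + (1 - q⁻¹ ^ 2) • S + f1 * kk l K2 j (i + 1)) * cF l F1 K2 F2 i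
          - q⁻¹ • (cF l F1 K2 F2 i * (f2 + (1 - q⁻¹ ^ 2) • S + f1 * kk l K2 j (i + 1))) =
          (f2 * cF l F1 K2 F2 i - q⁻¹ • (cF l F1 K2 F2 i * f2)) +
          (1 - q⁻¹ ^ 2) • (S * cF l F1 K2 F2 i - q⁻¹ • (cF l F1 K2 F2 i * S)) +
          (f1 * kk l K2 j (i + 1) * cF l F1 K2 F2 i
          - q⁻¹ • (cF l F1 K2 F2 i * (f1 * kk l K2 j (i + 1)))) := by
        rw [add_mul, add_mul, mul_add, mul_add, smul_mul_assoc, mul_smul_comm]
        module
      rw [hfin, hA, hB, hC]
      module
  intro i j hij
  exact key (j - i - 1) i j (by omega)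

end Pool.Agent.Helper59.SQ
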