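import Pool.Agent.Helper19.SQ.GoalsC

/-!
Project SQ (MP_bb32d1_al), second stage, packet KIL.
-/

set_option autoImplicit false

namespace Pool.Agent.Helper59.SQ

noncomputable section

open Pool.Agent.Helper19.SQ MvPolynomial

theorem exps_add {n : ℕ} (s : (Fin n ⊕ Fin n) →₀ ℕ) (k : Fin n) (i j : ℕ) :
    exps (s + Finsupp.single (Sum.inl k) i + Finsupp.single (Sum.inr k) j) =
      Function.update (exps s) k (exps s k + (i, j)) := by
  funext t
  by_cases h : t = k
  · subst h
    rw [Function.update_self]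
    simp [exps]
  · rw [Function.update_of_ne h]
    simp [exps, Ne.symm h]

theorem mon_mul_ps {n : ℕ} (s : (Fin n ⊕ Fin n) →₀ ℕ) (i j : ℕ) :
    (monomial s (1 : ℂ) : Pn n) * ps n i j =
      ∑ k, monomial (s + Finsupp.single (Sum.inl k) i + Finsupp.single (Sum.inr k) j) 1 := by
  unfold ps
  rw [Finset.mul_sum]
  refine Finset.sum_congr rfl fun k _ => ?_
  rw [X_pow_eq_monomial, X_pow_eq_monomial, monomial_mul, monomial_mul, one_mul, one_mul,
    add_assoc]

/-- the evaluation `x_k ↦ 0`, `y_k ↦ 1` -/
def ev (n : ℕ) : Pn n →ₐ[ℂ] ℂ := aeval (Sum.elim (fun _ => 0) fun _ => 1)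

theorem ev_ps (n i j : ℕ) : ev n (ps n i j) = if i = 0 then (n : ℂ) else 0 := by
  unfold ev ps
  rw [map_sum]
  simp only [map_mul, map_pow, aeval_X, Sum.elim_inl, Sum.elim_inr, one_pow, mul_one]
  by_cases h : i = 0
  · simp [h]
  · simp [h]

theorem ev_sh (n : ℕ) (f : Pn n) : ev n (sh n f) = constantCoeff f := by
  have h1 : (ev n).comp (sh n) = aeval (fun _ => (0 : ℂ)) := by
    refine algHom_ext fun v => ?_
    rcases v with k | k
    · simp [ev, sh]
    · simp [ev, sh]
  have h2 := DFunLike.congr_fun h1 f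
  rw [AlgHom.comp_apply, aeval_zero'] at h2
  exact h2

theorem rn_sh (n : ℕ) (σ : Equiv.Perm (Fin n)) (f : Pn n) : rn σ (sh n f) = sh n (rn σ f) := by
  have h1 : (rn σ).comp (sh n) = (sh n).comp (rn σ) := by
    refine algHom_ext fun v => ?_
    rcases v with k | k
    · simp [rn, sh]
    · simp [rn, sh]
  exact DFunLike.congr_fun h1 f

theorem s_kil (hREL : S_REL) (hWEY : S_WEY) : Pool.Agent.Helper19.SQ.S_KIL := by
  intro l n _ T _ _ Ct hl d d' hdd x hx lam τ hτ P hP
  set ψ := phi Ct d x lam τ with hψ
  have step1 : ∀ (i j : ℕ) (Q : Pn n), ψ (Q * (ps n i j - C (if i = 0 then (n : ℂ) else 0))) = 0 := by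
    intro i j Q
    set c : ℂ := if i = 0 then (n : ℂ) else 0 with hc
    have hL : ψ ∘ₗ LinearMap.mulRight ℂ (ps n i j - C c) = 0 := by
      refine (MvPolynomial.basisMonomials (Fin n ⊕ Fin n) ℂ).ext fun s => ?_
      rw [MvPolynomial.coe_basisMonomials, LinearMap.comp_apply, LinearMap.mulRight_apply,
        LinearMap.zero_apply, mul_sub, map_sub, mon_mul_ps, map_sum]
      have h1 : ∀ k : Fin n, ψ (monomial (s + Finsupp.single (Sum.inl k) i +
          Finsupp.single (Sum.inr k) j) 1) =
          lam (pOp Ct d x (Function.update (exps s) k (exps s k + (i, j))) τ) := by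
        intro k
        rw [hψ, phi_monomial, exps_add]
      rw [Finset.sum_congr rfl fun k _ => h1 k, ← map_sum,
        hREL l n T Ct hl d d' hdd x hx τ hτ (exps s) i j, map_smul]
      have h2 : (monomial s (1 : ℂ) : Pn n) * C c = c • monomial s 1 := by
        rw [mul_comm, ← smul_eq_C_mul]
      rw [h2, map_smul, hψ, phi_monomial, sub_self]
    have h3 := DFunLike.congr_fun hL Q
    rw [LinearMap.comp_apply, LinearMap.mulRight_apply, LinearMap.zero_apply] at h3
    exact h3
  have step2 : ∀ f ∈ Algebra.adjoin ℂ {p : Pn n | ∃ i j, p = ps n i j}, ∀ Q : Pn n,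
      ψ (Q * (f - C (ev n f))) = 0 := by
    intro f hf
    induction hf using Algebra.adjoin_induction with
    | mem f hf =>
      obtain ⟨i, j, rfl⟩ := hf
      intro Q
      rw [ev_ps]
      exact step1 i j Q
    | algebraMap r =>
      intro Q
      have : (algebraMap ℂ (Pn n)) r - C (ev n ((algebraMap ℂ (Pn n)) r)) = 0 := by
        rw [AlgHom.commutes]
        exact sub_self _
      rw [this, mul_zero, map_zero]
    | add f g _ _ hf hg =>
      intro Q
      have : Q * (f + g - C (ev n (f + g))) = Q * (f - C (ev n f)) + Q * (g - C (ev n g)) := by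
        rw [map_add, C_add]
        ring
      rw [this, map_add, hf, hg, add_zero]
    | mul f g _ _ hf hg =>
      intro Q
      have : Q * (f * g - C (ev n (f * g))) = (Q * f) * (g - C (ev n g)) +
          (Q * C (ev n g)) * (f - C (ev n f)) := by
        rw [map_mul, C_mul]
        ring
      rw [this, map_add, hf, hg, add_zero]
  have step3 : ∀ P ∈ dIdeal n, ∀ Q : Pn n, ψ (Q * sh n P) = 0 := by
    intro P hP
    unfold dIdeal at hP
    induction hP using Submodule.span_induction with
    | mem f hf =>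
      intro Q
      have h1 : ∀ σ : Equiv.Perm (Fin n), rn σ (sh n f) = sh n f := by
        intro σ
        rw [rn_sh, hf.1 σ]
      have h2 := step2 _ (hWEY n (sh n f) h1) Q
      rw [ev_sh, hf.2, C_0, sub_zero] at h2
      exact h2
    | zero =>
      intro Q
      rw [map_zero, mul_zero, map_zero]
    | add f g _ _ hf hg =>
      intro Q
      rw [map_add, mul_add, map_add, hf, hg, add_zero]
    | smul a f _ hf =>
      intro Q
      have h1 : Q * sh n (a • f) = (Q * sh n a) * sh n f := by
        rw [smul_eq_mul, map_mul, mul_assoc]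
      rw [h1]
      exact hf _
  have h := step3 P hP 1
  rw [one_mul] at h
  exact h

end

end Pool.Agent.Helper59.SQ
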