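import Pool.Agent.Helper4.SQ.GoalsR
import Pool.Agent.Helper34.SQ.GoalsT0

/-!
Project SQ (MP_bb32d1_al), second stage, part Q, packet BETA.
-/

set_option autoImplicit false
set_option linter.unusedSectionVars false

namespace Pool.Agent.Helper59.SQ

noncomputable section

open Matrix Pool.Agent.Helper19.SQ Pool.Agent.Helper34.SQ Pool.Agent.Helper41.SQ
open Pool.Agent.Helper4.SQ

theorem X1_pow {A : Type} [Ring A] [Algebra ℂ A] {ι : Type} [Fintype ι] [DecidableEq ι]
    (X : Matrix ι ι A) (k : ℕ) : X1 X ^ k = X1 (X ^ k) := by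
  have := map_pow (bd (A := A) (ι := ι)) X k
  exact this.symm

theorem X1_mul {A : Type} [Ring A] [Algebra ℂ A] {ι : Type} [Fintype ι] [DecidableEq ι]
    (X Y : Matrix ι ι A) : X1 X * X1 Y = X1 (X * Y) := by
  have := map_mul (bd (A := A) (ι := ι)) X Y
  exact this.symm

theorem sBETA (hCORE0 : S_CORE0) : S_BETA := by
  intro A _ _ ι _ _ C q P
  obtain ⟨_, _, _, _, c5, _, _, c8, _⟩ := hCORE0 A ι C
  have hTS : sc A C.T * sc A C.S = 1 := by rw [sc_mul, C.TS, sc_one]
  have h1 : ∀ k, C.β k = P.κ2 • cq C (k + 1) := by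
    intro k
    have e1 : C.X1p ^ k = sc A C.S * X1 (C.X ^ k) * sc A C.T := by
      have := c5 (Polynomial.X ^ k)
      unfold pev at this
      rw [map_pow, map_pow, Polynomial.aeval_X, Polynomial.aeval_X, X1_pow] at this
      exact this
    unfold Core0.β bvu
    rw [P.v_eq, ← Matrix.dotProduct_mulVec, Matrix.mulVec_mulVec, e1]
    have e2 : X1 C.X * sc A C.T * (sc A C.S * X1 (C.X ^ k) * sc A C.T) =
        X1 (C.X ^ (k + 1)) * sc A C.T := by
      calc X1 C.X * sc A C.T * (sc A C.S * X1 (C.X ^ k) * sc A C.T)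
          = X1 C.X * (sc A C.T * sc A C.S) * X1 (C.X ^ k) * sc A C.T := by
            simp only [mul_assoc]
        _ = X1 (C.X ^ (k + 1)) * sc A C.T := by
            rw [hTS, mul_one, X1_mul, ← pow_succ']
    rw [e2, ← Matrix.mulVec_mulVec]
    have e3 : sc A C.T *ᵥ C.u = fun x => if x.1 = x.2 then P.κ2 • (1 : A) else 0 :=
      funext P.Tu
    rw [e3]
    unfold cq
    rw [Finset.smul_sum]
    simp only [dotProduct, Matrix.mulVec, X1, Matrix.of_apply, Fintype.sum_prod_type]
    refine Finset.sum_congr rfl fun i _ => ?_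
    rw [Finset.sum_eq_single i]
    · rw [Finset.sum_eq_single i]
      · rw [Finset.sum_eq_single i]
        · simp [smul_smul]
        · intro b _ hb
          simp [Ne.symm hb]
        · intro h; exact absurd (Finset.mem_univ _) h
      · intro b _ hb
        refine Finset.sum_eq_zero fun c _ => ?_
        rw [if_neg (fun h => hb h.symm), zero_mul]
      · intro h; exact absurd (Finset.mem_univ _) h
    · intro b _ hb
      rw [if_neg (fun h => hb h.symm), zero_mul]
    · intro h; exact absurd (Finset.mem_univ _) h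
  refine ⟨h1, fun k a => ?_⟩
  have hκ : P.κ2 ≠ 0 := by
    rw [P.κ2q]
    have h2 := P.ω_ne
    rw [P.ωq] at h2
    exact mul_ne_zero (neg_ne_zero.2 h2) (inv_ne_zero P.q_ne)
  rcases k with _ | k
  · unfold cq
    simp only [pow_zero, Matrix.one_apply_eq]
    rw [← Finset.sum_smul, smul_mul_assoc, mul_smul_comm, one_mul, mul_one]
  · have h3 : cq C (k + 1) = P.κ2⁻¹ • C.β k := by
      rw [h1 k, smul_smul, inv_mul_cancel₀ hκ, one_smul]
    rw [h3, smul_mul_assoc, mul_smul_comm, c8 k a]

end

end Pool.Agent.Helper59.SQ
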