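import Pool.Agent.Helper4.SQ.GoalsR2
import Pool.Agent.Helper28.SQ.CH1

/-!
Project SQ (MP_bb32d1_al), second stage, part Q, packet CH3.
-/

set_option autoImplicit false
set_option linter.unusedSectionVars false

namespace Pool.Agent.Helper59.SQ

noncomputable section

open Matrix Pool.Agent.Helper19.SQ Pool.Agent.Helper34.SQ Pool.Agent.Helper41.SQ
open Pool.Agent.Helper4.SQ

theorem sCH3 (hFL : S_FL) (hLAYA : S_LAYA) (hHARM : S_HARM) (hZ : S_ZUNIV)
    (hG : S_GENV) (hC : S_CUP0) (hFD : S_FDIM) (hCV : S_CHARV) : S_CH3 := by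
  intro N l _ q D hP lam a
  have hfd := hFD N l q hP
  obtain ⟨zfd, zs, zg, -⟩ := hZ N l q hP hfd lam
  have := zfd
  have hL := hLAYA N l q D hP (Zl q lam) lam (zgen q lam) zs
  have hgen : Submodule.span (A N l q)
      (Set.range fun j : Fin (N + 1) => tv D.dl j (zgen q lam)) = ⊤ := by
    rw [eq_top_iff]
    intro f _
    rw [Pool.Agent.Helper28.SQ.ten_eq_sum f]
    refine Submodule.sum_mem _ fun j _ => ?_
    have h1 : f j ∈ Submodule.span (A N l q) {zgen q lam} := by rw [zg]; trivial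
    obtain ⟨a, ha⟩ := Submodule.mem_span_singleton.1 h1
    rw [← ha, hG N l q D (fun a p j => hC N l q hP D a p j) (Zl q lam) a (zgen q lam) j]
    exact Submodule.sum_mem _ fun i _ => Submodule.smul_mem _ _ (Submodule.subset_span ⟨i, rfl⟩)
  have hd : ∀ lam', dZ (N := N) q lam' = dZ q lam := fun lam' => (hHARM N l q D hP).1 lam' lam
  obtain ⟨-, h2⟩ := hFL N l q hP hfd (Ten D.dl (Zl q lam)) (N + 1)
    (fun j => tv D.dl j (zgen q lam)) (fun j => addE lam j)
    (fun j k => (hL j).1 k)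
    (fun j i => by rw [(hL j).2 i, sub_self]; exact Submodule.zero_mem _) hgen
  have hfr : Module.finrank ℂ (Ten D.dl (Zl q lam)) = ∑ j, dZ q (addE lam j) := by
    rw [Pool.Agent.Helper28.SQ.ten_finrank]
    simp only [hd]
    simp [dZ]
  obtain ⟨h3, -⟩ := h2 hfr
  rw [← (hCV N l q D.dl (Zl q lam)).2 a]
  exact h3 a

end

end Pool.Agent.Helper59.SQ
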