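import Pool.Agent.Helper41.SQ.GoalsN

/-!
Project SQ (MP_bb32d1_al), stage B, packet N-STP.
-/

set_option autoImplicit false
set_option linter.unusedSectionVars false

namespace Pool.Agent.Helper59.SQN

noncomputable section

open Matrix Pool.Agent.Helper19.SQ Pool.Agent.Helper34.SQ Pool.Agent.Helper41.SQ
open Pool.Agent.Helper93.SQ

theorem n_stp (hCORE1 : S_CORE1) (hBLX : S_BLX) (hSTFP : S_STFP) :
    Pool.Agent.Helper41.SQ.S_STP := by
  intro A _ _ ι _ _ l C ζ c m σ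
  obtain ⟨c1, c2, c3, c4, c5, c6⟩ := hCORE1 A ι l C
  have hST : sc A C.S * sc A C.T = 1 := by rw [sc_mul, C.ST, sc_one]
  have hTS : sc A C.T * sc A C.S = 1 := by rw [sc_mul, C.TS, sc_one]
  have θne : ∀ i, (C.θ i : ℂ) ≠ 0 := fun i => (C.θ i).ne_zero
  constructor
  · intro hσ hyp
    have s1 := t1_sc (D1 C.δ C.ε) (D2 C.δ C.ε) C.T c3 σ hσ.t1
    have s2 := t2_sc (fun y => (C.θ y.1 : ℂ)⁻¹ * (C.θ y.2 : ℂ))
      (fun y => (C.θ y.1 : ℂ) * (C.θ y.2 : ℂ)⁻¹) ζ C.φ C.T (fun x y hxy => by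
        have h := C.φT x y hxy
        have a1 := θne x.1
        have a2 := θne x.2
        have a3 := θne y.1
        have a4 := θne y.2
        change (C.θ y.1 : ℂ) * (C.θ y.2 : ℂ)⁻¹ = (C.θ x.1 : ℂ)⁻¹ * (C.θ x.2 : ℂ)
        field_simp
        linear_combination h) σ hσ.t2
    have s3 := t3_sc (C.e m) C.T σ hσ.t3
    have hD2 := act_D2 C m _ s1 s3
    have hP : act σ (pev (C.pc c) (X1 C.X)) = σ := by
      rw [act_pev C c m σ hσ.t3, hσ.t4]
    have hX1p : act (act σ (sc A C.T)) (pev (C.pc c) (sc A C.S * X1 C.X * sc A C.T)) =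
        act σ (sc A C.T) := by
      rw [c5, act_act]
      have h1 : sc A C.T * (sc A C.S * pev (C.pc c) (X1 C.X) * sc A C.T) =
          pev (C.pc c) (X1 C.X) * sc A C.T := by
        calc sc A C.T * (sc A C.S * pev (C.pc c) (X1 C.X) * sc A C.T)
            = (sc A C.T * sc A C.S) * pev (C.pc c) (X1 C.X) * sc A C.T := by
              simp only [mul_assoc]
          _ = pev (C.pc c) (X1 C.X) * sc A C.T := by rw [hTS, one_mul]
      rw [h1, ← act_act, hP]
    have hX2 := hSTFP A ι C.toCore0 (act σ (sc A C.T)) hyp (C.pc c)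
    rw [hX1p] at hX2
    have s4 : act (act σ (sc A C.T)) (X1 (C.ε (C.e (m + al c)))) = act σ (sc A C.T) := by
      have h1 : act (act σ (sc A C.T)) (X1 (C.ε (C.e (m + al c)))) =
          act (act (act σ (sc A C.T)) (D2 C.δ C.ε (C.e m))) (X1 (C.ε (C.e (m + al c)))) := by
        rw [hD2]
      rw [h1, act_act (act σ (sc A C.T)), ← hBLX A ι l C c m, ← act_act (act σ (sc A C.T)), hX2,
        hD2]
    exact ⟨s1, s2, s3, s4⟩
  · intro hσ hyp
    have s1 := t1_sc (D2 C.δ C.ε) (D1 C.δ C.ε) C.S C.inter σ hσ.t1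
    have s2 := t2_sc (fun y => (C.θ y.1 : ℂ) * (C.θ y.2 : ℂ)⁻¹)
      (fun y => (C.θ y.1 : ℂ)⁻¹ * (C.θ y.2 : ℂ)) ζ C.φ C.S (fun x y hxy => by
        have h := C.φS x y hxy
        have a1 := θne x.1
        have a2 := θne x.2
        have a3 := θne y.1
        have a4 := θne y.2
        change (C.θ y.1 : ℂ)⁻¹ * (C.θ y.2 : ℂ) = (C.θ x.1 : ℂ) * (C.θ x.2 : ℂ)⁻¹
        field_simp
        linear_combination (-1 : ℂ) * h) σ hσ.t2
    have s3 := t3_sc (C.e m) C.S σ hσ.t3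
    have hD2 := act_D2 C m σ hσ.t1 hσ.t3
    have hcomm : pev (C.pc c) (X2 C.ε C.X) * D2 C.δ C.ε (C.e m) =
        D2 C.δ C.ε (C.e m) * pev (C.pc c) (X2 C.ε C.X) := pev_comm (c2 (C.e m)) _
    have hX2 : act σ (pev (C.pc c) (X2 C.ε C.X)) = σ := by
      have h1 : act σ (pev (C.pc c) (X2 C.ε C.X)) =
          act (act σ (D2 C.δ C.ε (C.e m))) (pev (C.pc c) (X2 C.ε C.X)) := by rw [hD2]
      rw [h1, act_act, ← hcomm, hBLX A ι l C c m, ← act_act, hD2, hσ.t4]
    have hX1p := hSTFP A ι C.toCore0 σ hyp (C.pc c)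
    rw [hX2, c5] at hX1p
    have s4 : act (act σ (sc A C.S)) (X1 (C.δ (C.e (m - al c)))) = act σ (sc A C.S) := by
      rw [← act_pev C c m _ s3, act_act]
      have h1 : sc A C.S * pev (C.pc c) (X1 C.X) =
          (sc A C.S * pev (C.pc c) (X1 C.X) * sc A C.T) * sc A C.S := by
        rw [mul_assoc _ (sc A C.T), hTS, mul_one]
      rw [h1, ← act_act, ← hX1p]
    exact ⟨s1, s2, s3, s4⟩

end

end Pool.Agent.Helper59.SQN
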